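import Pool.Agent.Lib.MP_1f54e8_co.Family

set_option autoImplicit false

namespace Pool.Agent.Results.MP_1f54e8_co.Counter

open Pool.Agent.Lib.MP_1f54e8_co

/-- Q1 fails, already in its `ρ` part, for words that contain both letters, in every large length
and for every gap `g` between the numbers of 1s: `v` is the beginning of `001001...` and
`w = 0^b 1^a`. -/
theorem result (g k : ℕ) (hg : 1 ≤ g) (hk : 72 * g + 50 ≤ k) :
    ∃ v w : List Bool, ¬ InR v ∧ ¬ InR w ∧ v.length = k ∧ w.length = k ∧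
      v.count true + g = w.count true ∧
      true ∈ v ∧ false ∈ v ∧ true ∈ w ∧ false ∈ w ∧
      ∃ rv rw : ℝ, HasRho v rv ∧ HasRho w rw ∧ rv < rw := by
  obtain ⟨a, ha⟩ : ∃ a, k / 3 + g = a + 1 := ⟨k / 3 + g - 1, by omega⟩
  obtain ⟨b, hb⟩ : ∃ b, k = a + b + 2 := ⟨k - a - 2, by omega⟩
  have hl := per_length k
  have hc := per_count k
  have hl' : (List.replicate (b + 1) false ++ List.replicate (a + 1) true).length = k := by
    simp; omega
  have hc' : (List.replicate (b + 1) false ++ List.replicate (a + 1) true).count true = a + 1 := by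
    simp [List.count_replicate]
  have hv : ¬ InR (per k) := fun h => by have := InR_count h; omega
  have hw : ¬ InR (List.replicate (b + 1) false ++ List.replicate (a + 1) true) :=
    fun h => by have := InR_count h; omega
  obtain ⟨rv, h1, h2⟩ := per_upper k (by omega) hv
  obtain ⟨rw, h3, h4⟩ := zo_lower a b (by omega) (by omega) hw
  refine ⟨_, _, hv, hw, hl, hl', by omega, ?_, ?_, by simp, by simp, rv, rw, h1, h3, ?_⟩
  · rw [← List.count_pos_iff]; omega
  · obtain ⟨m, rfl⟩ : ∃ m, k = m + 3 := ⟨k - 3, by omega⟩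
    simp [per]
  · rw [← hb] at h4
    have hp : (0 : ℝ) < (1 / 2) ^ k := by positivity
    have e1 : (k : ℝ) ≤ 3 * ((b : ℝ) - a) + 6 * g := by
      have : k + 3 * a ≤ 3 * b + 6 * g := by omega
      have : (k : ℝ) + 3 * a ≤ 3 * b + 6 * g := by exact_mod_cast this
      linarith
    have e2 : (72 : ℝ) * g + 50 ≤ k := by exact_mod_cast hk
    have e3 : ((k : ℝ) + 4) / 3 / (2 * (9 / 8) * (99 / 100) ^ 2)
        < ((b : ℝ) - a) / (2 * (101 / 100)) := by
      rw [div_lt_div_iff₀ (by norm_num) (by norm_num)]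
      linarith
    have e4 := mul_lt_mul_of_pos_right e3 hp
    have e5 : ((k : ℝ) + 4) / 3 * (1 / 2) ^ k / (2 * (9 / 8) * (99 / 100) ^ 2)
        = ((k : ℝ) + 4) / 3 / (2 * (9 / 8) * (99 / 100) ^ 2) * (1 / 2) ^ k := by ring
    have e6 : ((b : ℝ) - a) * (1 / 2) ^ k / (2 * (101 / 100))
        = ((b : ℝ) - a) / (2 * (101 / 100)) * (1 / 2) ^ k := by ring
    linarith

end Pool.Agent.Results.MP_1f54e8_co.Counter
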