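import Pool.Agent.Lib.MP_1f54e8_co.QPart

set_option autoImplicit false

namespace Pool.Agent.Results.MP_1f54e8_co.QEqRho

open Pool.Agent.Lib.MP_1f54e8_co

/-- With the definitions of the problem file, `q^w = ρ^w` for every word `w` outside `R`. -/
theorem result (w : List Bool) (hw : ¬ InR w) (hk : 2 ≤ w.length) :
    ∃ r : ℝ, HasRho w r ∧ HasQ w r := by
  obtain ⟨z, hz, hz1, h1⟩ := exists_root_gen hk hw
  exact ⟨rhoF z w, hasRho_rhoF hz hz1 hk hw h1, hasQ_rhoF hz hz1 hk hw h1⟩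

end Pool.Agent.Results.MP_1f54e8_co.QEqRho
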