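import Pool.Agent.Lib.MP_1f54e8_co.Stop

set_option autoImplicit false

namespace Pool.Agent.Results.MP_1f54e8_co.SameBorderBoth

open Pool.Agent.Lib.MP_1f54e8_co

/-- For all words of equal length with the same border set, outside `R`, the word with fewer 1s
has the strictly larger `ρ` and the strictly smaller frequency of 1s in a sequence of fair coin
flips stopped at the first occurrence of the word. -/
theorem result (v w : List Bool) (hv : ¬ InR v) (hw : ¬ InR w) (hk : 2 ≤ v.length)
    (hl : v.length = w.length) (hb : borders v = borders w) (hc : v.count true < w.count true) :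
    (∃ rv rw : ℝ, HasRho v rv ∧ HasRho w rw ∧ rw < rv) ∧
      (∃ qv qw : ℝ, HasQStop v qv ∧ HasQStop w qw ∧ qv < qw) := by
  have hk' : 2 ≤ w.length := hl ▸ hk
  have hne : w ≠ [] := by rintro rfl; simp at hk'
  have hne' : v ≠ [] := by rintro rfl; simp at hk
  refine ⟨?_, qstop_lt hne' hne hb hc⟩
  obtain ⟨z, hz, hz1, h1⟩ := exists_root_gen hk' hw
  have h0 := B0_eq_of_borders z hb
  have hL := BL_eq_of_borders z hb
  have h1' : (2 * z - 1) * B0 z v v = 1 := by rw [h0]; exact h1
  refine ⟨rhoF z v, rhoF z w, hasRho_rhoF hz hz1 hk hv h1', hasRho_rhoF hz hz1 hk' hw h1, ?_⟩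
  have hB := B1_lt (by linarith) hz1 hne hb hc (root_le hz hne h1)
  unfold rhoF
  rw [h0, hL]
  exact div_lt_div_of_pos_right (by linarith) (cond3 hz hz1 hk' h1)

end Pool.Agent.Results.MP_1f54e8_co.SameBorderBoth
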